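import Pool.Agent.V7H18.JL.Meas

set_option autoImplicit false

/-! Almost every fibre of a set with the `K`-tuple property has positive measure near zero. -/

open MeasureTheory Filter Topology Set
open scoped ENNReal Pointwise

namespace Pool.Agent.V7H18.JL

/-- the part near zero of the fibre of `L` over `x` -/
def Fb {k : ℕ} (L : Set (Fin (k + 1) → ℝ)) (ε x : ℝ) : Set (Fin k → ℝ) :=
  {w | Shr ε (Fin.cons x w : Fin (k + 1) → ℝ) ∧ (Fin.cons x w : Fin (k + 1) → ℝ) ∈ L}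

theorem Fb_mono {k : ℕ} (L : Set (Fin (k + 1) → ℝ)) {ε ε' : ℝ} (h : ε ≤ ε') (x : ℝ) (hx : 0 < x) :
    Fb L ε x ⊆ Fb L ε' x := fun _ hw => ⟨Shr_mono h (by simpa using hx) hw.1, hw.2⟩

/-- the graph of the fibres -/
def Gr {k : ℕ} (L : Set (Fin (k + 1) → ℝ)) (ε : ℝ) : Set (ℝ × (Fin k → ℝ)) :=
  {p | Shr ε (Fin.cons p.1 p.2 : Fin (k + 1) → ℝ) ∧ (Fin.cons p.1 p.2 : Fin (k + 1) → ℝ) ∈ L}

theorem cons_meas {k : ℕ} : Measurable (fun p : ℝ × (Fin k → ℝ) =>
    (Fin.cons p.1 p.2 : Fin (k + 1) → ℝ)) := by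
  rw [measurable_pi_iff]
  intro i
  refine Fin.cases ?_ (fun i => ?_) i
  · simp only [Fin.cons_zero]
    exact measurable_fst
  · simp only [Fin.cons_succ]
    exact (measurable_pi_apply i).comp measurable_snd

theorem Gr_meas {k : ℕ} (L : Set (Fin (k + 1) → ℝ)) (hL : MeasurableSet L) (ε : ℝ) :
    MeasurableSet (Gr L ε) :=
  cons_meas ((Shr_open ε).measurableSet.inter hL)

/-- the points over which the fibre is null near zero -/
def Xs {k : ℕ} (L : Set (Fin (k + 1) → ℝ)) (ε : ℝ) : Set ℝ := {x | volume (Fb L ε x) = 0}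

theorem Xs_meas {k : ℕ} (L : Set (Fin (k + 1) → ℝ)) (hL : MeasurableSet L) (ε : ℝ) :
    MeasurableSet (Xs L ε) :=
  (measurable_measure_prodMk_left (ν := (volume : Measure (Fin k → ℝ))) (Gr_meas L hL ε))
    (measurableSet_singleton 0)

/-- the null set -/
def Nl {k : ℕ} (L : Set (Fin (k + 1) → ℝ)) (ε : ℝ) : Set (Fin (k + 1) → ℝ) :=
  {v | v 0 ∈ Xs L ε ∧ Shr ε v ∧ v ∈ L}

theorem Nl_null {k : ℕ} (L : Set (Fin (k + 1) → ℝ)) (hL : MeasurableSet L) (ε : ℝ) :
    MeasurableSet (Nl L ε) ∧ volume (Nl L ε) = 0 := by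
  have hX := Xs_meas L hL ε
  set W : Set (ℝ × (Fin k → ℝ)) := Prod.fst ⁻¹' (Xs L ε) ∩ Gr L ε with hW
  have hWm : MeasurableSet W := (measurable_fst hX).inter (Gr_meas L hL ε)
  have hmp := volume_preserving_piFinSuccAbove (fun _ : Fin (k + 1) => ℝ) 0
  have hNW : Nl L ε = (MeasurableEquiv.piFinSuccAbove (fun _ : Fin (k + 1) => ℝ) 0) ⁻¹' W := by
    ext v
    have h1 : ((MeasurableEquiv.piFinSuccAbove (fun _ : Fin (k + 1) => ℝ) 0) v).1 = v 0 := rfl
    have h3 : (Fin.cons ((MeasurableEquiv.piFinSuccAbove (fun _ : Fin (k + 1) => ℝ) 0) v).1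
        ((MeasurableEquiv.piFinSuccAbove (fun _ : Fin (k + 1) => ℝ) 0) v).2 :
          Fin (k + 1) → ℝ) = v := by
      funext i
      refine Fin.cases ?_ (fun i => ?_) i
      · rfl
      · rfl
    simp only [Nl, hW, Gr, mem_inter_iff, mem_preimage, mem_ofPred_eq, h1]
    rw [h1] at h3
    rw [h3]
  refine ⟨by rw [hNW]; exact hmp.measurable hWm, ?_⟩
  rw [hNW, hmp.measure_preimage hWm.nullMeasurableSet, Measure.volume_eq_prod,
    Measure.measure_prod_null hWm]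
  refine Eventually.of_forall fun x => ?_
  show volume (Prod.mk x ⁻¹' W) = 0
  by_cases hx : x ∈ Xs L ε
  · have h1 : Prod.mk x ⁻¹' W = Fb L ε x := by
      ext w
      simp [hW, Gr, Fb, hx]
    rw [h1]
    exact hx
  · have h1 : Prod.mk x ⁻¹' W = ∅ := by
      ext w
      simp [hW, hx]
    rw [h1]
    simp

theorem trans_small (A : Set ℝ) (hA : MeasurableSet A) (hAt : volume A ≠ ∞) (h : ℝ≥0∞) (hh : 0 < h) :
    ∃ δ : ℝ, 0 < δ ∧ ∀ t : ℝ, 0 < t → t < δ → volume {u | u ∈ A ∧ u - t ∉ A} ≤ h := by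
  let f : ℝ → C(ℝ, ℝ) := fun t => ⟨fun u => u - t, by fun_prop⟩
  have hcont : Continuous f := by
    refine ContinuousMap.continuous_of_continuous_uncurry _ ?_
    show Continuous (fun p : ℝ × ℝ => p.2 - p.1)
    fun_prop
  have h1 := tendsto_measure_symmDiff_preimage_nhds_zero (μ := (volume : Measure ℝ))
    (ν := (volume : Measure ℝ)) (l := 𝓝 (0 : ℝ)) (f := f) (g := f 0) (s := A) (hcont.tendsto 0)
    (Eventually.of_forall fun t => measurePreserving_sub_right volume t)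
    (measurePreserving_sub_right volume 0) hA.nullMeasurableSet hAt
  have h2 := (ENNReal.tendsto_nhds_zero.1 h1) h hh
  obtain ⟨δ, hδ, h3⟩ := Metric.eventually_nhds_iff.1 h2
  refine ⟨δ, hδ, fun t ht0 ht => ?_⟩
  have h4 := h3 (y := t) (by rw [Real.dist_eq, sub_zero, abs_of_pos ht0]; exact ht)
  refine le_trans (measure_mono ?_) h4
  rintro u ⟨hu1, hu2⟩
  right
  refine ⟨?_, hu2⟩
  show u - 0 ∈ A
  rw [sub_zero]
  exact hu1

/-- one step of the construction -/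
theorem step {k : ℕ} (L : Set (Fin (k + 1) → ℝ)) (hL : MeasurableSet L) (η : ℝ≥0∞) (hη : 0 < η)
    (s e : ℝ) (he : 0 < e)
    (hcon : ¬ ∀ᵐ x : ℝ, 0 < x → x < s → ∀ ε : ℝ, 0 < ε → 0 < volume (Fb L ε x)) :
    ∃ (A : Set ℝ) (b ε s' : ℝ), 0 < b ∧ 0 < ε ∧ ε ≤ e ∧ 0 < s' ∧ s' ≤ ε * b ∧ s' ≤ s ∧
      MeasurableSet A ∧ A ⊆ Ioo b s ∧ 0 < volume A ∧ A ⊆ Xs L ε ∧
      ∀ t : ℝ, 0 < t → t < s' → volume {u | u ∈ A ∧ u - t ∉ A} ≤ η * volume A := by
  have h0 : ∃ n : ℕ, 0 < volume (Xs L (min e (1 / ((n : ℝ) + 1))) ∩ Ioo (1 / ((n : ℝ) + 1)) s) := by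
    by_contra hn
    push Not at hn
    apply hcon
    have h1 : ∀ᵐ x : ℝ, ∀ n : ℕ,
        x ∉ Xs L (min e (1 / ((n : ℝ) + 1))) ∩ Ioo (1 / ((n : ℝ) + 1)) s := by
      rw [ae_all_iff]
      intro n
      exact measure_eq_zero_iff_ae_notMem.1 (le_antisymm (hn n) bot_le)
    filter_upwards [h1] with x hx hx0 hxs ε hε
    obtain ⟨n, hn⟩ := exists_nat_one_div_lt (show 0 < min ε x from lt_min hε hx0)
    by_contra hcon2
    have h2 : volume (Fb L ε x) = 0 := le_antisymm (not_lt.1 hcon2) bot_le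
    apply hx n
    refine ⟨measure_mono_null (Fb_mono L ?_ x hx0) h2, hn.trans_le (min_le_right _ _), hxs⟩
    exact (min_le_right _ _).trans (hn.le.trans (min_le_left _ _))
  obtain ⟨n, hn⟩ := h0
  set b : ℝ := 1 / ((n : ℝ) + 1) with hb
  have hb0 : 0 < b := by positivity
  set A := Xs L (min e b) ∩ Ioo b s with hA
  have hAm : MeasurableSet A := (Xs_meas L hL _).inter measurableSet_Ioo
  have hAt : volume A ≠ ∞ := ((measure_mono inter_subset_right).trans_lt (by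
    rw [Real.volume_Ioo]; exact ENNReal.ofReal_lt_top)).ne
  obtain ⟨δ, hδ, hδt⟩ := trans_small A hAm hAt (η * volume A) (ENNReal.mul_pos hη.ne' hn.ne')
  have hs : 0 < s := by
    obtain ⟨x, hx⟩ := nonempty_of_measure_ne_zero hn.ne'
    exact hb0.trans (hx.2.1.trans hx.2.2)
  have hm0 : 0 < min e b := lt_min he hb0
  refine ⟨A, b, min e b, min (min (min e b * b) δ) s, hb0, hm0, min_le_left _ _, ?_, ?_, ?_, hAm,
    inter_subset_right, hn, inter_subset_left, ?_⟩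
  · exact lt_min (lt_min (mul_pos hm0 hb0) hδ) hs
  · exact (min_le_left _ _).trans (min_le_left _ _)
  · exact min_le_right _ _
  · intro t ht0 ht
    exact hδt t ht0 (ht.trans_le ((min_le_left _ _).trans (min_le_right _ _)))

/-- the data at the scales `0, 1, ..., K - 1` -/
theorem scales {k : ℕ} (L : Set (Fin (k + 1) → ℝ)) (hL : MeasurableSet L) (η : ℝ≥0∞) (hη : 0 < η)
    (c : ℝ) (hc : 0 < c)
    (hcon : ∀ s : ℝ, 0 < s → ¬ ∀ᵐ x : ℝ, 0 < x → x < s → ∀ ε : ℝ, 0 < ε → 0 < volume (Fb L ε x)) :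
    ∃ (A : ℕ → Set ℝ) (b ε s : ℕ → ℝ), s 0 = c ∧ (∀ n, 0 < s n) ∧ (∀ n, s (n + 1) ≤ s n) ∧
      (∀ n, 0 < b n) ∧ (∀ n, 0 < ε n) ∧ (∀ n, ε (n + 1) ≤ ε n) ∧ (∀ n, s (n + 1) ≤ ε n * b n) ∧
      (∀ n, MeasurableSet (A n)) ∧ (∀ n, A n ⊆ Ioo (b n) (s n)) ∧
      (∀ n, 0 < volume (A n)) ∧ (∀ n, A n ⊆ Xs L (ε n)) ∧
      ∀ n, ∀ t : ℝ, 0 < t → t < s (n + 1) → volume {u | u ∈ A n ∧ u - t ∉ A n} ≤ η * volume (A n) := by
  have h : ∀ s : {s : ℝ × ℝ // 0 < s.1 ∧ 0 < s.2}, ∃ (A : Set ℝ) (b ε s' : ℝ), 0 < b ∧ 0 < ε ∧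
      ε ≤ s.1.2 ∧ 0 < s' ∧ s' ≤ ε * b ∧ s' ≤ s.1.1 ∧
      MeasurableSet A ∧ A ⊆ Ioo b s.1.1 ∧ 0 < volume A ∧ A ⊆ Xs L ε ∧
      ∀ t : ℝ, 0 < t → t < s' → volume {u | u ∈ A ∧ u - t ∉ A} ≤ η * volume A :=
    fun s => step L hL η hη s.1.1 s.1.2 s.2.2 (hcon s.1.1 s.2.1)
  choose A b ε s' h1 h2 h3 h4 h5 h6 h7 h8 h9 h10 h11 using h
  let S : ℕ → {s : ℝ × ℝ // 0 < s.1 ∧ 0 < s.2} := fun n =>
    Nat.rec ⟨(c, 1), hc, one_pos⟩ (fun _ x => ⟨(s' x, ε x), h4 x, h2 x⟩) n
  refine ⟨fun n => A (S n), fun n => b (S n), fun n => ε (S n), fun n => (S n).1.1, rfl,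
    fun n => (S n).2.1, fun n => h6 (S n), fun n => h1 _, fun n => h2 _, fun n => h3 (S (n + 1)),
    fun n => h5 (S n), fun n => h7 _, fun n => h8 _, fun n => h9 _, fun n => h10 _,
    fun n => h11 (S n)⟩

section product

variable {K : ℕ} (A : Fin K → Set ℝ)

/-- the uniform measure on `A i` -/
noncomputable def un (i : Fin K) : Measure ℝ := (volume (A i))⁻¹ • volume.restrict (A i)

theorem un_prob (h0 : ∀ i, 0 < volume (A i)) (ht : ∀ i, volume (A i) ≠ ∞) (i : Fin K) :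
    IsProbabilityMeasure (un A i) := by
  refine ⟨?_⟩
  rw [un, Measure.smul_apply, Measure.restrict_apply_univ, smul_eq_mul,
    ENNReal.inv_mul_cancel (h0 i).ne' (ht i)]

theorem pi_un_ac (h0 : ∀ i, 0 < volume (A i))
    (ht : ∀ i, volume (A i) ≠ ∞) :
    Measure.pi (un A) = (∏ i, volume (A i))⁻¹ • volume.restrict (Set.pi univ A) := by
  have := un_prob A h0 ht
  refine Measure.pi_eq fun s hs => ?_
  rw [Measure.smul_apply, Measure.restrict_apply (MeasurableSet.univ_pi hs), ← Set.pi_inter_distrib,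
    volume_pi_pi, smul_eq_mul]
  rw [ENNReal.prod_inv_distrib (fun i _ j _ _ => Or.inl (h0 i).ne'), ← Finset.prod_mul_distrib]
  refine Finset.prod_congr rfl fun i _ => ?_
  rw [un, Measure.smul_apply, Measure.restrict_apply (hs i), smul_eq_mul]

theorem un_null (h0 : ∀ i, 0 < volume (A i))
    (ht : ∀ i, volume (A i) ≠ ∞) (N : Set (Fin K → ℝ)) (hN : volume N = 0) :
    Measure.pi (un A) N = 0 := by
  rw [pi_un_ac A h0 ht, Measure.smul_apply]
  rw [smul_eq_mul]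
  rw [measure_mono_null (μ := volume.restrict (Set.pi univ A)) (subset_refl N), mul_zero]
  exact Measure.absolutelyContinuous_of_le Measure.restrict_le_self hN

theorem un_pair (h0 : ∀ i, 0 < volume (A i)) (ht : ∀ i, volume (A i) ≠ ∞) (i j : Fin K) (hij : i ≠ j) :
    (Measure.pi (un A)).map (fun u => (u i, u j)) = (un A i).prod (un A j) := by
  classical
  have := un_prob A h0 ht
  symm
  refine Measure.prod_eq fun s t hs htt => ?_
  rw [Measure.map_apply (by fun_prop) (hs.prod htt)]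
  have h1 : (fun u : Fin K → ℝ => (u i, u j)) ⁻¹' s ×ˢ t =
      Set.pi (({i, j} : Finset (Fin K)) : Set (Fin K)) (fun l => if l = i then s else t) := by
    ext u
    simp [hij.symm]
  rw [h1, Measure.pi_pi_finset, Finset.prod_pair hij]
  simp [hij.symm]

end product

/-- **Almost every fibre has positive measure near zero.** -/
theorem fibre (K k : ℕ) (L : Set (Fin (k + 1) → ℝ)) (hL : MeasurableSet L) (c : ℝ) (hc : 0 < c)
    (hR : Ram K (k + 1) L c) :
    ∃ c' : ℝ, 0 < c' ∧ ∀ᵐ x : ℝ, 0 < x → x < c' → ∀ ε : ℝ, 0 < ε → 0 < volume (Fb L ε x) := by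
  classical
  by_contra hcon0
  have hcon : ∀ s : ℝ, 0 < s → ¬ ∀ᵐ x : ℝ, 0 < x → x < s → ∀ ε : ℝ, 0 < ε → 0 < volume (Fb L ε x) :=
    fun s hs h => hcon0 ⟨s, hs, h⟩
  have hη : (0 : ℝ≥0∞) < ((K : ℝ≥0∞) * K + 1)⁻¹ := by
    rw [ENNReal.inv_pos]
    exact ENNReal.add_ne_top.2 ⟨ENNReal.mul_ne_top (ENNReal.natCast_ne_top _)
      (ENNReal.natCast_ne_top _), ENNReal.one_ne_top⟩
  obtain ⟨A', b, ε, s, hs0, hspos, hsanti, hb0, hε0, hεanti, hsε, hAm, hAs, hA0, hAX, hAt⟩ :=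
    scales L hL _ hη c hc hcon
  set η : ℝ≥0∞ := ((K : ℝ≥0∞) * K + 1)⁻¹ with hηd
  have hsa : Antitone s := antitone_nat_of_succ_le hsanti
  have hεa : Antitone ε := antitone_nat_of_succ_le hεanti
  set A : Fin K → Set ℝ := fun i => A' i with hA
  have hAtop : ∀ i, volume (A i) ≠ ∞ := fun i => ((measure_mono (hAs i)).trans_lt (by
    rw [Real.volume_Ioo]; exact ENNReal.ofReal_lt_top)).ne
  have hA0' : ∀ i, 0 < volume (A i) := fun i => hA0 i
  have hAm' : ∀ i, MeasurableSet (A i) := fun i => hAm i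
  have hprob := un_prob A hA0' hAtop
  set ν := Measure.pi (un A) with hν
  -- first bad events
  have hbad1 : ∀ i j : Fin K, i < j → ν {u | u i - u j ∉ A i} ≤ η := by
    intro i j hij
    have hW : MeasurableSet {p : ℝ × ℝ | p.1 - p.2 ∉ A i} :=
      ((measurable_fst.sub measurable_snd) (hAm' i)).compl
    have h1 : ν {u | u i - u j ∉ A i} = ((un A i).prod (un A j)) {p : ℝ × ℝ | p.1 - p.2 ∉ A i} := by
      rw [← un_pair A hA0' hAtop i j hij.ne, Measure.map_apply (by fun_prop) hW]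
      rfl
    rw [h1, Measure.prod_apply_symm hW]
    have h2 : ∀ᵐ y ∂(un A j), (un A i) ((fun x => (x, y)) ⁻¹' {p : ℝ × ℝ | p.1 - p.2 ∉ A i}) ≤ η := by
      have h3 : ∀ᵐ y ∂(un A j), y ∈ A j := by
        have : ∀ᵐ y ∂(volume.restrict (A j)), y ∈ A j := ae_restrict_mem (hAm' j)
        exact Measure.ae_smul_measure this _
      filter_upwards [h3] with y hy
      have hy1 := (hAs j hy)
      have hy0 : 0 < y := (hb0 _).trans hy1.1
      have hy2 : y < s (i + 1) := hy1.2.trans_le (hsa (by exact_mod_cast hij))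
      rw [un, Measure.smul_apply, smul_eq_mul]
      have h4 : MeasurableSet ((fun x : ℝ => (x, y)) ⁻¹' {p : ℝ × ℝ | p.1 - p.2 ∉ A i}) :=
        measurable_prodMk_right hW
      rw [Measure.restrict_apply h4]
      have h5 : (fun x : ℝ => (x, y)) ⁻¹' {p : ℝ × ℝ | p.1 - p.2 ∉ A i} ∩ A i =
          {u | u ∈ A' i ∧ u - y ∉ A' i} := by
        ext u
        simp only [mem_inter_iff, mem_preimage, mem_ofPred_eq, hA]
        tauto
      rw [h5]
      have h6 := hAt i y hy0 hy2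
      calc (volume (A i))⁻¹ * volume {u | u ∈ A' i ∧ u - y ∉ A' i}
          ≤ (volume (A i))⁻¹ * (η * volume (A i)) := by gcongr
        _ = η := by
            rw [mul_comm η, ← mul_assoc, ENNReal.inv_mul_cancel (hA0' i).ne' (hAtop i), one_mul]
    calc ∫⁻ y, (un A i) ((fun x => (x, y)) ⁻¹' {p : ℝ × ℝ | p.1 - p.2 ∉ A i}) ∂(un A j)
        ≤ ∫⁻ _, η ∂(un A j) := lintegral_mono_ae h2
      _ = η := by rw [lintegral_const, measure_univ, mul_one]
  -- second bad events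
  have hbad2 : ∀ j : Fin (k + 1 + 1) → Fin K, StrictMono j →
      ν ((E j) ⁻¹' (Nl L (ε (j 0)))) = 0 := by
    intro j hj
    apply un_null A hA0' hAtop
    obtain ⟨hN1, hN2⟩ := Nl_null L hL (ε (j 0))
    have h1 := (ae_comp_linearMap_mem_iff (E j) (volume : Measure (Fin K → ℝ))
      (volume : Measure (Fin (k + 1) → ℝ)) (E_surj j hj) hN1.compl).2
      (measure_eq_zero_iff_ae_notMem.1 hN2)
    exact measure_eq_zero_iff_ae_notMem.2 h1
  -- a good point
  have hmem : ν {u | ¬ ∀ i, u i ∈ A i} = 0 := by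
    have h1 : ∀ i, ∀ᵐ u ∂ν, u i ∈ A i := by
      intro i
      have h3 : ∀ᵐ y ∂(un A i), y ∈ A i := by
        have : ∀ᵐ y ∂(volume.restrict (A i)), y ∈ A i := ae_restrict_mem (hAm' i)
        exact Measure.ae_smul_measure this _
      exact Measure.tendsto_eval_ae_ae.eventually h3
    exact ae_all_iff.2 h1
  set Bad : Set (Fin K → ℝ) := {u | ¬ ∀ i, u i ∈ A i} ∪
    ((⋃ p ∈ (Finset.univ.filter fun p : Fin K × Fin K => p.1 < p.2), {u | u p.1 - u p.2 ∉ A p.1}) ∪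
    (⋃ j ∈ (Finset.univ.filter fun j : Fin (k + 1 + 1) → Fin K => StrictMono j),
      (E j) ⁻¹' (Nl L (ε (j 0))))) with hBad
  have hB : ν Bad < 1 := by
    have e1 : ν (⋃ p ∈ (Finset.univ.filter fun p : Fin K × Fin K => p.1 < p.2),
        {u | u p.1 - u p.2 ∉ A p.1}) ≤ (K : ℝ≥0∞) * K * η := by
      refine (measure_biUnion_finset_le _ _).trans ?_
      calc ∑ p ∈ (Finset.univ.filter fun p : Fin K × Fin K => p.1 < p.2),
            ν {u | u p.1 - u p.2 ∉ A p.1}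
          ≤ ∑ p ∈ (Finset.univ.filter fun p : Fin K × Fin K => p.1 < p.2), η := by
            refine Finset.sum_le_sum fun p hp => hbad1 _ _ ?_
            simpa using hp
        _ ≤ ∑ _p : Fin K × Fin K, η := Finset.sum_le_sum_of_subset (Finset.filter_subset _ _)
        _ = (K : ℝ≥0∞) * K * η := by
            rw [Finset.sum_const, nsmul_eq_mul]
            simp
    have e2 : ν (⋃ j ∈ (Finset.univ.filter fun j : Fin (k + 1 + 1) → Fin K => StrictMono j),
        (E j) ⁻¹' (Nl L (ε (j 0)))) = 0 := by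
      refine le_antisymm ((measure_biUnion_finset_le _ _).trans ?_) bot_le
      refine (Finset.sum_nonpos fun j hj => ?_)
      exact (hbad2 j (by simpa using hj)).le
    calc ν Bad ≤ 0 + ((K : ℝ≥0∞) * K * η + 0) := by
          rw [hBad]
          refine (measure_union_le _ _).trans (add_le_add hmem.le ?_)
          exact (measure_union_le _ _).trans (add_le_add e1 e2.le)
      _ = (K : ℝ≥0∞) * K * η := by rw [zero_add, add_zero]
      _ < 1 := by
          have h1 : (K : ℝ≥0∞) * K ≠ ∞ := ENNReal.mul_ne_top (ENNReal.natCast_ne_top _)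
            (ENNReal.natCast_ne_top _)
          have h2 : (K : ℝ≥0∞) * K + 1 ≠ ∞ := ENNReal.add_ne_top.2 ⟨h1, ENNReal.one_ne_top⟩
          rw [hηd, ← div_eq_mul_inv, ENNReal.div_lt_iff (Or.inl (by simp)) (Or.inl h2), one_mul]
          exact ENNReal.lt_add_right h1 one_ne_zero
  have hex : ∃ u, u ∉ Bad := by
    by_contra hcon2
    push Not at hcon2
    have : Bad = univ := eq_univ_of_forall hcon2
    rw [this, measure_univ] at hB
    exact lt_irrefl _ hB
  obtain ⟨u, hu⟩ := hex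
  rw [hBad] at hu
  simp only [mem_union, not_or, mem_iUnion, mem_ofPred_eq, not_not, not_exists, Finset.mem_filter,
    Finset.mem_univ, true_and, mem_preimage] at hu
  obtain ⟨hu1, hu2, hu3⟩ := hu
  have hanti : StrictAnti u := by
    intro i j hij
    have h1 := hu2 (i, j) hij
    have h2 := (hAs i h1).1
    have h3 := hb0 i
    linarith
  obtain ⟨j, hj, hjL⟩ := hR u hanti (fun i => by
    have h1 := hAs i (hu1 i)
    refine ⟨(hb0 _).trans h1.1, h1.2.trans_le ?_⟩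
    rw [← hs0]
    exact hsa (Nat.zero_le _))
  refine hu3 j hj ⟨?_, fun i => ?_, hjL⟩
  · have h1 : E j u 0 = u (j 0) - u (j 1) := rfl
    rw [h1]
    exact hAX _ (hu2 (j 0, j 1) (hj (by simp)))
  · have e1 : (i.succ.castSucc : Fin (k + 1 + 1)) = i.castSucc.succ := by
      ext
      simp
    have l1 : j i.castSucc.castSucc < j i.castSucc.succ := hj Fin.castSucc_lt_succ
    have l2 : j i.castSucc.succ < j i.succ.succ := by
      rw [← e1]
      exact hj Fin.castSucc_lt_succ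
    have h1 := hAs _ (hu2 (j i.castSucc.castSucc, j i.castSucc.succ) l1)
    have h2 := hAs _ (hu2 (j i.castSucc.succ, j i.succ.succ) l2)
    have h4 : s (j i.castSucc.succ) ≤ ε (j i.castSucc.castSucc) * b (j i.castSucc.castSucc) :=
      (hsa (show ((j i.castSucc.castSucc : Fin K) : ℕ) + 1 ≤ (j i.castSucc.succ : Fin K) from l1)).trans
        (hsε _)
    have h5 : ε (j i.castSucc.castSucc) ≤ ε (j 0) := hεa (hj.monotone (Fin.zero_le _))
    have h6 := hb0 (j i.castSucc.castSucc)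
    have h7 := hε0 (j 0)
    rw [E_apply, E_apply, e1]
    refine ⟨(hb0 _).trans h2.1, h2.2.trans_le (h4.trans ?_)⟩
    calc ε (j i.castSucc.castSucc) * b (j i.castSucc.castSucc)
        ≤ ε (j 0) * b (j i.castSucc.castSucc) := mul_le_mul_of_nonneg_right h5 h6.le
      _ ≤ _ := mul_le_mul_of_nonneg_left h1.1.le h7.le

end Pool.Agent.V7H18.JL
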