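import Pool.Agent.V7H18.JL.Main

set_option autoImplicit false

/-!
# The fibres of the set of the joint limit points of consecutive prime gaps

Let `f(x) = log x (log₂ x)² log₄ x / (log₃ x)²`, the record scale of the start library.  For every `k`
and every scale between `log` and a constant times `f`, let `L` be the set of the limit points of the
vectors of `k + 1` consecutive prime gaps divided by the scale, along primes which all lie in one reduced
residue class.  In the sense of measure, almost every fibre of `L` over a small first (or last)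
coordinate has positive measure inside every cone of fast shrinking (or fast growing) vectors.  In the
sense of category, the interior of `L` accumulates, inside every such cone, at EVERY small point of the
first (or last) coordinate axis.

The arithmetic input is the start theorem `Pool.Agent.H672R3.SimRec.window` (helper672, on top of
`Pool.Agent.H362R2.RQ.stRQ` of helper362, the record sieve of helper256 and helper410 and the Maynard-Tao
sieve inside record windows of helper312's team).
-/

open Filter MeasureTheory Set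

namespace Pool.Agent.V7H18.JL.JointFibres

/-- The record scale `f(x) = log x (log₂ x)² log₄ x / (log₃ x)²` (iterated natural logarithms). -/
noncomputable def f (x : ℝ) : ℝ :=
  Real.log x * (Real.log (Real.log x)) ^ 2 * Real.log (Real.log (Real.log (Real.log x))) /
    (Real.log (Real.log (Real.log x))) ^ 2

/-- The prime with index `n` (`p 0 = 2`). -/
noncomputable def p (n : ℕ) : ℕ := Nat.nth Nat.Prime n

/-- The gap `p (n + 1) - p n`. -/
noncomputable def gap (n : ℕ) : ℝ := (p (n + 1) : ℝ) - p n

/-- `g` is a scale with constant `T` (relative to `c`): it varies slowly, and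
`log X ≤ T g(X) ≤ c f(X)` for all large `X`. -/
structure Scale (c : ℝ) (g : ℝ → ℝ) (T : ℝ) : Prop where
  pos : 0 < T
  slow : ∀ δ : ℝ, 0 < δ → ∀ᶠ X : ℝ in atTop, ∀ y : ℝ, X ≤ y → y ≤ 4 * X → |g X / g y - 1| < δ
  range : ∀ᶠ X : ℝ in atTop, Real.log X ≤ T * g X ∧ T * g X ≤ c * f X

/-- The entries of `v` after the first are positive, and each is less than `ε` times the preceding
one. -/
def Shrinking {k : ℕ} (ε : ℝ) (v : Fin (k + 1) → ℝ) : Prop :=
  ∀ i : Fin k, 0 < v i.succ ∧ v i.succ < ε * v i.castSucc

/-- The entries of `v` before the last are positive, and each is less than `ε` times the next one. -/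
def Growing {k : ℕ} (ε : ℝ) (v : Fin (k + 1) → ℝ) : Prop :=
  ∀ i : Fin k, 0 < v i.castSucc ∧ v i.castSucc < ε * v i.succ

/-- The limit vectors of `k + 1` consecutive gaps at the scale `g`, along blocks of `k + 2` consecutive
primes congruent to `a` modulo `q`. -/
def LimitVectors (g : ℝ → ℝ) (k q a : ℕ) : Set (Fin (k + 1) → ℝ) :=
  {v | ∀ η : ℝ, 0 < η → ∃ᶠ n : ℕ in atTop, (∀ i : Fin (k + 1 + 1), p (n + i) ≡ a [MOD q]) ∧
    ∀ i : Fin (k + 1), |gap (n + i) / g (p n) - v i| < η}

/-- **Fibres of the set of the joint limit points.**  Let `k ≥ 0`.  There is `c₀ > 0`, depending on `k`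
only, such that `f` is a scale with constant `c₀`, `log` is a scale with every constant `T ≥ 1`, and for
every scale `g` with some constant `T₀`, every squarefree `q` and every `a` prime to `q` there is `c > 0`
with:

* (measure) for almost every `x` in `(0, c)` and all `ε > 0`, the set of the `w` in `ℝ^k` such that
  `(x, w)` is a limit vector and is shrinking with factor `ε` has positive measure, and the set of the
  `w` such that `(w, x)` is a limit vector and is growing with factor `ε` has positive measure;
* (category) for EVERY `x` in `(0, c)` and all `ε > 0`, there is an interior point `v` of the set of the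
  limit vectors with `|v_0 - x| < ε` which is shrinking with factor `ε`, and an interior point `v` with
  `|v_k - x| < ε` which is growing with factor `ε`. -/
theorem result (k : ℕ) : ∃ c₀ : ℝ, 0 < c₀ ∧ Scale c₀ f c₀ ∧ (∀ T : ℝ, 1 ≤ T → Scale c₀ Real.log T) ∧
    ∀ (g : ℝ → ℝ) (T₀ : ℝ), Scale c₀ g T₀ → ∀ q a : ℕ, Squarefree q → a.Coprime q →
      ∃ c : ℝ, 0 < c ∧
        (∀ᵐ x : ℝ, 0 < x → x < c → ∀ ε : ℝ, 0 < ε →
          0 < volume {w : Fin k → ℝ | Shrinking ε (Fin.cons x w : Fin (k + 1) → ℝ) ∧
            (Fin.cons x w : Fin (k + 1) → ℝ) ∈ LimitVectors g k q a} ∧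
          0 < volume {w : Fin k → ℝ | Growing ε (Fin.snoc w x : Fin (k + 1) → ℝ) ∧
            (Fin.snoc w x : Fin (k + 1) → ℝ) ∈ LimitVectors g k q a}) ∧
        (∀ x : ℝ, 0 < x → x < c → ∀ ε : ℝ, 0 < ε →
          (∃ v ∈ interior (LimitVectors g k q a), |v 0 - x| < ε ∧ Shrinking ε v) ∧
          (∃ v ∈ interior (LimitVectors g k q a), |v (Fin.last k) - x| < ε ∧ Growing ε v)) := by
  obtain ⟨K, c₀, hc₀, hw⟩ := Pool.Agent.V7H18.JL.window' (k + 1)
  have hscale : ∀ (g : ℝ → ℝ) (T₀ : ℝ), Scale c₀ g T₀ → ∀ q a : ℕ, Squarefree q → a.Coprime q →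
      Pool.Agent.V7H18.JL.Ram K (k + 1) (LimitVectors g k q a) T₀ :=
    fun g T₀ hg q a hq ha => Pool.Agent.V7H18.JL.ram_scale (k + 1) K c₀ hw g hg.slow T₀ hg.pos
      hg.range q a hq ha
  refine ⟨c₀, hc₀, ⟨hc₀, Pool.Agent.V7H18.JL.slow_ff, ?_⟩, fun T hT => ⟨by linarith,
    Pool.Agent.V7H18.JL.slow_log, ?_⟩, fun g T₀ hg q a hq ha => ?_⟩
  · filter_upwards [Pool.Agent.H672R3.InfRec.scale_ev c₀ hc₀] with X hX
    exact ⟨hX, le_rfl⟩
  · filter_upwards [Pool.Agent.H672R3.InfRec.scale_ev (c₀ / T) (by positivity),
      eventually_ge_atTop 1] with X hX hX1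
    have h0 : 0 ≤ Real.log X := Real.log_nonneg hX1
    refine ⟨le_mul_of_one_le_left h0 hT, ?_⟩
    have h1 : Real.log X ≤ c₀ / T * f X := hX
    have h2 := mul_le_mul_of_nonneg_left h1 (show 0 ≤ T by linarith)
    have h3 : T * (c₀ / T * f X) = c₀ * f X := by field_simp
    rw [h3] at h2
    exact h2
  · exact Pool.Agent.V7H18.JL.fibre2 K k (LimitVectors g k q a)
      (Pool.Agent.V7H18.JL.isClosed_LimG g (k + 1) q a) T₀ hg.pos (hscale g T₀ hg q a hq ha)

end Pool.Agent.V7H18.JL.JointFibres
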