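import Pool.Agent.V7H18.JL.Scale

set_option autoImplicit false

/-! The density, fibre and interior theorems for a set with the `K`-tuple property and for its reversal. -/

open Filter Topology Set MeasureTheory

namespace Pool.Agent.V7H18.JL

/-- the consecutive entries of `v` grow at least by the factor `1 / ε` -/
def Gro {k : ℕ} (ε : ℝ) (v : Fin (k + 1) → ℝ) : Prop :=
  ∀ i : Fin k, 0 < v i.castSucc ∧ v i.castSucc < ε * v i.succ

theorem Gro_of_Shr {k : ℕ} {ε : ℝ} {v : Fin (k + 1) → ℝ} (h : Shr ε v) :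
    Gro ε (fun i => v (Fin.rev i)) := by
  intro i
  simp only [Fin.rev_castSucc, Fin.rev_succ]
  exact h (Fin.rev i)

theorem Shr_of_Gro {k : ℕ} {ε : ℝ} {v : Fin (k + 1) → ℝ} (h : Gro ε (fun i => v (Fin.rev i))) :
    Shr ε v := by
  intro i
  have h1 := h (Fin.rev i)
  simp only [Fin.rev_castSucc, Fin.rev_succ, Fin.rev_rev] at h1
  exact h1

theorem density2 (K k : ℕ) (ε : ℝ) (hε : 0 < ε) : ∃ κ : ℝ, 0 < κ ∧
    ∀ (L : Set (Fin (k + 1) → ℝ)) (c T : ℝ), 0 < T → T ≤ c →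
    Ram K (k + 1) L c →
      ENNReal.ofReal (κ * T ^ (k + 1)) ≤ volume {v | v ∈ L ∧ (∀ i, 0 < v i ∧ v i < T) ∧ Shr ε v} ∧
      ENNReal.ofReal (κ * T ^ (k + 1)) ≤ volume {v | v ∈ L ∧ (∀ i, 0 < v i ∧ v i < T) ∧ Gro ε v} := by
  obtain ⟨κ, hκ, h⟩ := density K k ε hε
  refine ⟨κ, hκ, fun L c T hT hTc hR => ⟨h L c T hT hTc hR, ?_⟩⟩
  refine (h _ c T hT hTc (Ram_rev L c hR)).trans ?_
  rw [← rev_vol (k + 1) {v | v ∈ L ∧ (∀ i, 0 < v i ∧ v i < T) ∧ Gro ε v}]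
  refine measure_mono ?_
  rintro v ⟨h1, h2, h3⟩
  exact ⟨h1, fun i => h2 (Fin.rev i), Gro_of_Shr h3⟩

theorem cons_rev' {k : ℕ} (x : ℝ) (w : Fin k → ℝ) :
    (fun i => (Fin.cons x w : Fin (k + 1) → ℝ) (Fin.rev i)) =
      (Fin.snoc (fun i => w (Fin.rev i)) x : Fin (k + 1) → ℝ) := by
  funext i
  refine Fin.lastCases ?_ (fun i => ?_) i
  · simp
  · simp only [Fin.rev_castSucc, Fin.cons_succ, Fin.snoc_castSucc]

theorem fibre2 (K k : ℕ) (L : Set (Fin (k + 1) → ℝ)) (hL : IsClosed L) (c : ℝ) (hc : 0 < c)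
    (hR : Ram K (k + 1) L c) :
    ∃ c' : ℝ, 0 < c' ∧
      (∀ᵐ x : ℝ, 0 < x → x < c' → ∀ ε : ℝ, 0 < ε →
        0 < volume {w : Fin k → ℝ | Shr ε (Fin.cons x w : Fin (k + 1) → ℝ) ∧
          (Fin.cons x w : Fin (k + 1) → ℝ) ∈ L} ∧
        0 < volume {w : Fin k → ℝ | Gro ε (Fin.snoc w x : Fin (k + 1) → ℝ) ∧
          (Fin.snoc w x : Fin (k + 1) → ℝ) ∈ L}) ∧
      (∀ x : ℝ, 0 < x → x < c' → ∀ ε : ℝ, 0 < ε →
        (∃ v ∈ interior L, |v 0 - x| < ε ∧ Shr ε v) ∧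
        (∃ v ∈ interior L, |v (Fin.last k) - x| < ε ∧ Gro ε v)) := by
  have hrc : Continuous (fun (v : Fin (k + 1) → ℝ) (i : Fin (k + 1)) => v (Fin.rev i)) := by
    fun_prop
  have hLr : IsClosed {v : Fin (k + 1) → ℝ | (fun i => v (Fin.rev i)) ∈ L} := hL.preimage hrc
  have hRr := Ram_rev L c hR
  obtain ⟨c₁, hc₁, h₁⟩ := fibre K k L hL.measurableSet c hc hR
  obtain ⟨c₂, hc₂, h₂⟩ := fibre K k _ hLr.measurableSet c hc hRr
  obtain ⟨c₃, hc₃, h₃⟩ := inter K k L hL c hc hR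
  obtain ⟨c₄, hc₄, h₄⟩ := inter K k _ hLr c hc hRr
  refine ⟨min (min c₁ c₂) (min c₃ c₄), lt_min (lt_min hc₁ hc₂) (lt_min hc₃ hc₄), ?_, ?_⟩
  · filter_upwards [h₁, h₂] with x hx1 hx2 hx0 hxc ε hε
    have l1 : x < c₁ := hxc.trans_le ((min_le_left _ _).trans (min_le_left _ _))
    have l2 : x < c₂ := hxc.trans_le ((min_le_left _ _).trans (min_le_right _ _))
    refine ⟨hx1 hx0 l1 ε hε, ?_⟩
    rw [← rev_vol k]
    refine (hx2 hx0 l2 ε hε).trans_le (measure_mono ?_)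
    rintro w ⟨hw1, hw2⟩
    have h5 := Gro_of_Shr hw1
    have h6 : (fun i => (Fin.cons x w : Fin (k + 1) → ℝ) (Fin.rev i)) ∈ L := hw2
    rw [cons_rev'] at h5 h6
    exact ⟨h5, h6⟩
  · intro x hx0 hxc ε hε
    have l3 : x < c₃ := hxc.trans_le ((min_le_right _ _).trans (min_le_left _ _))
    have l4 : x < c₄ := hxc.trans_le ((min_le_right _ _).trans (min_le_right _ _))
    refine ⟨h₃ x hx0 l3 ε hε, ?_⟩
    obtain ⟨v, hv1, hv2, hv3⟩ := h₄ x hx0 l4 ε hε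
    refine ⟨fun i => v (Fin.rev i), ?_, ?_, Gro_of_Shr hv3⟩
    · rw [mem_interior]
      refine ⟨(fun (w : Fin (k + 1) → ℝ) (i : Fin (k + 1)) => w (Fin.rev i)) ⁻¹'
        interior {v : Fin (k + 1) → ℝ | (fun i => v (Fin.rev i)) ∈ L}, ?_,
        isOpen_interior.preimage hrc, ?_⟩
      · intro w hw
        have h5 := interior_subset hw
        simp only [mem_ofPred_eq, Fin.rev_rev] at h5
        exact h5
      · simp only [mem_preimage, Fin.rev_rev]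
        exact hv1
    · simpa using hv2

end Pool.Agent.V7H18.JL
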