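import Mathlib

set_option autoImplicit false

/-! Measure theory and topology for the joint limit points of consecutive prime gaps: a set which contains
the difference vector of some subset of every `K`-tuple. -/

open MeasureTheory Filter Topology Set
open scoped ENNReal Pointwise

namespace Pool.Agent.V7H18.JL

/-- Preimages under a surjective linear map, inside a bounded set, have measure at most a constant times
the measure of the set. -/
theorem vol_le {K m : ℕ} (L : (Fin K → ℝ) →ₗ[ℝ] (Fin m → ℝ)) (hL : Function.Surjective L)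
    (B : Set (Fin K → ℝ)) (hB : Bornology.IsBounded B) :
    ∃ C : ℝ≥0∞, C ≠ ∞ ∧ ∀ S : Set (Fin m → ℝ), volume (B ∩ L ⁻¹' S) ≤ C * volume S := by
  obtain ⟨R, hR⟩ := L.exists_rightInverse_of_surjective (LinearMap.range_eq_top.2 hL)
  have hR' : ∀ y, L (R y) = y := fun y => LinearMap.congr_fun hR y
  let Φ : ((Fin m → ℝ) × LinearMap.ker L) →ₗ[ℝ] (Fin K → ℝ) := R.coprod (LinearMap.ker L).subtype
  have hΦ : ∀ p, Φ p = R p.1 + p.2 := fun p => rfl
  have hLΦ : ∀ p, L (Φ p) = p.1 := by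
    intro p
    rw [hΦ, map_add, hR']
    have := p.2.2
    rw [LinearMap.mem_ker] at this
    rw [this, add_zero]
  have hinj : Function.Injective Φ := by
    rw [injective_iff_map_eq_zero]
    intro p hp
    have h1 : p.1 = 0 := by rw [← hLΦ p, hp, map_zero]
    have h2 : (p.2 : Fin K → ℝ) = 0 := by
      have h3 := hΦ p
      rw [hp, h1, map_zero, zero_add] at h3
      exact h3.symm
    exact Prod.ext h1 (Subtype.ext h2)
  have hsur : Function.Surjective Φ := by
    intro x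
    refine ⟨(L x, ⟨x - R (L x), ?_⟩), ?_⟩
    · rw [LinearMap.mem_ker, map_sub, hR', sub_self]
    · rw [hΦ]
      simp
  let e : ((Fin m → ℝ) × LinearMap.ker L) ≃ₗ[ℝ] (Fin K → ℝ) := LinearEquiv.ofBijective Φ ⟨hinj, hsur⟩
  let ec := e.toContinuousLinearEquiv
  let ρ : Measure (LinearMap.ker L) := Measure.addHaar
  obtain ⟨c₀, c₀_fin, h₀⟩ :
      ∃ c₀ : ℝ≥0∞, c₀ ≠ ∞ ∧ (volume : Measure (Fin K → ℝ)).map ec.symm =
        c₀ • (volume : Measure (Fin m → ℝ)).prod ρ := by
    have : Measure.IsAddHaarMeasure ((volume : Measure (Fin K → ℝ)).map ec.symm) :=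
      ec.symm.isAddHaarMeasure_map volume
    exact ⟨_, ENNReal.coe_ne_top, Measure.isAddLeftInvariant_eq_smul _ _⟩
  -- the bounded set in the kernel
  let Q : (Fin K → ℝ) → LinearMap.ker L := fun x => (ec.symm x).2
  have hQc : Continuous Q := continuous_snd.comp ec.symm.continuous
  have hcl : IsCompact (closure B) := Metric.isCompact_of_isClosed_isBounded isClosed_closure hB.closure
  have hQB : ρ (Q '' closure B) ≠ ∞ := (hcl.image hQc).measure_lt_top.ne
  refine ⟨c₀ * ρ (Q '' closure B), ENNReal.mul_ne_top c₀_fin hQB, fun S => ?_⟩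
  have hsub : B ∩ L ⁻¹' S ⊆ ec.symm ⁻¹' (S ×ˢ (Q '' closure B)) := by
    rintro x ⟨hx1, hx2⟩
    refine ⟨?_, x, subset_closure hx1, rfl⟩
    have h1 : L x = (ec.symm x).1 := by
      rw [← hLΦ (ec.symm x)]
      congr 1
      exact (ec.apply_symm_apply x).symm
    rw [← h1]
    exact hx2
  calc volume (B ∩ L ⁻¹' S) ≤ volume (ec.symm ⁻¹' (S ×ˢ (Q '' closure B))) := measure_mono hsub
    _ = (volume.map ec.symm) (S ×ˢ (Q '' closure B)) := by
        have := ec.symm.toHomeomorph.toMeasurableEquiv.map_apply (μ := volume) (S ×ˢ (Q '' closure B))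
        exact this.symm
    _ = c₀ * (volume S * ρ (Q '' closure B)) := by
        rw [h₀, Measure.smul_apply, Measure.prod_prod, smul_eq_mul]
    _ = _ := by ring

/-- the difference vectors of decreasing tuples -/
def E {K m : ℕ} (j : Fin (m + 1) → Fin K) : (Fin K → ℝ) →ₗ[ℝ] (Fin m → ℝ) where
  toFun u i := u (j i.castSucc) - u (j i.succ)
  map_add' x y := by
    funext i
    simp only [Pi.add_apply]
    ring
  map_smul' r x := by
    funext i
    simp only [Pi.smul_apply, smul_eq_mul, RingHom.id_apply]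
    ring

theorem E_apply {K m : ℕ} (j : Fin (m + 1) → Fin K) (u : Fin K → ℝ) (i : Fin m) :
    E j u i = u (j i.castSucc) - u (j i.succ) := rfl

theorem E_surj {K m : ℕ} (j : Fin (m + 1) → Fin K) (hj : StrictMono j) :
    Function.Surjective (E j) := by
  intro w
  refine ⟨Function.extend j (fun i => - Fin.partialSum w i) 0, ?_⟩
  funext i
  rw [E_apply, hj.injective.extend_apply, hj.injective.extend_apply, Fin.partialSum_succ]
  ring

/-- `L` contains the difference vector of some subset of every decreasing `K`-tuple in `(0, c)`. -/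
def Ram (K m : ℕ) (L : Set (Fin m → ℝ)) (c : ℝ) : Prop :=
  ∀ u : Fin K → ℝ, StrictAnti u → (∀ i, 0 < u i ∧ u i < c) →
    ∃ j : Fin (m + 1) → Fin K, StrictMono j ∧ E j u ∈ L

theorem strictAnti_open (K : ℕ) : IsOpen {β : Fin K → ℝ | StrictAnti β} := by
  have h : {β : Fin K → ℝ | StrictAnti β} =
      ⋂ i : Fin K, ⋂ j : Fin K, {β : Fin K → ℝ | i < j → β j < β i} := by
    ext β
    simp only [mem_ofPred_eq, mem_iInter]
    exact ⟨fun h i j hij => h hij, fun h i j hij => h i j hij⟩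
  rw [h]
  refine isOpen_iInter_of_finite fun i => isOpen_iInter_of_finite fun j => ?_
  by_cases hij : i < j
  · simp only [hij, true_implies]
    exact isOpen_lt (continuous_apply j) (continuous_apply i)
  · simp [hij]

/-- the decreasing tuples in `(0, 1)` -/
def B1 (K : ℕ) : Set (Fin K → ℝ) := {β | StrictAnti β} ∩ Set.pi univ (fun _ => Ioo 0 1)

theorem B1_open (K : ℕ) : IsOpen (B1 K) :=
  (strictAnti_open K).inter (isOpen_set_pi finite_univ fun _ _ => isOpen_Ioo)

theorem B1_nonempty (K : ℕ) : (B1 K).Nonempty := by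
  refine ⟨fun i => 1 / ((i : ℕ) + 2), ?_, ?_⟩
  · intro i j hij
    have h : ((i : ℕ) : ℝ) < (j : ℕ) := by exact_mod_cast hij
    exact one_div_lt_one_div_of_lt (by positivity) (by linarith)
  · intro i _
    have h : (0 : ℝ) ≤ (i : ℕ) := by positivity
    refine ⟨by positivity, ?_⟩
    rw [div_lt_one (by positivity)]
    linarith

theorem B1_bdd (K : ℕ) : Bornology.IsBounded (B1 K) := by
  refine Bornology.IsBounded.subset ?_ inter_subset_right
  exact Bornology.IsBounded.pi fun _ => Metric.isBounded_Ioo 0 1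

/-- the consecutive entries of `v` shrink at least by the factor `ε` -/
def Shr {k : ℕ} (ε : ℝ) (v : Fin (k + 1) → ℝ) : Prop :=
  ∀ i : Fin k, 0 < v i.succ ∧ v i.succ < ε * v i.castSucc

theorem Shr_open {k : ℕ} (ε : ℝ) : IsOpen {v : Fin (k + 1) → ℝ | Shr ε v} := by
  have h : {v : Fin (k + 1) → ℝ | Shr ε v} =
      ⋂ i : Fin k, ({v : Fin (k + 1) → ℝ | 0 < v i.succ} ∩
        {v : Fin (k + 1) → ℝ | v i.succ < ε * v i.castSucc}) := by
    ext v
    simp only [Shr, mem_ofPred_eq, mem_iInter, mem_inter_iff]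
  rw [h]
  exact isOpen_iInter_of_finite fun i => (isOpen_lt continuous_const (continuous_apply _)).inter
    (isOpen_lt (continuous_apply _) (continuous_const.mul (continuous_apply _)))

theorem Shr_pos {k : ℕ} {ε : ℝ} {v : Fin (k + 1) → ℝ} (h0 : 0 < v 0) (h : Shr ε v) (i : Fin (k + 1)) :
    0 < v i := by
  refine Fin.cases h0 (fun i => ?_) i
  exact (h i).1

theorem Shr_mono {k : ℕ} {ε ε' : ℝ} (hε : ε ≤ ε') {v : Fin (k + 1) → ℝ} (h0 : 0 < v 0) (h : Shr ε v) :
    Shr ε' v := by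
  intro i
  refine ⟨(h i).1, (h i).2.trans_le ?_⟩
  exact mul_le_mul_of_nonneg_right hε (Shr_pos h0 h _).le

/-- the tuples in `(0, 1)` which decrease fast -/
def Bs (K : ℕ) (θ : ℝ) : Set (Fin K → ℝ) :=
  B1 K ∩ {u | ∀ i j : Fin K, i < j → u j < θ * u i}

theorem Bs_open (K : ℕ) (θ : ℝ) : IsOpen (Bs K θ) := by
  refine (B1_open K).inter ?_
  have h : {u : Fin K → ℝ | ∀ i j : Fin K, i < j → u j < θ * u i} =
      ⋂ i : Fin K, ⋂ j : Fin K, {u : Fin K → ℝ | i < j → u j < θ * u i} := by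
    ext u
    simp only [mem_ofPred_eq, mem_iInter]
  rw [h]
  refine isOpen_iInter_of_finite fun i => isOpen_iInter_of_finite fun j => ?_
  by_cases hij : i < j
  · simp only [hij, true_implies]
    exact isOpen_lt (continuous_apply j) (continuous_const.mul (continuous_apply i))
  · simp [hij]

theorem Bs_nonempty (K : ℕ) (θ : ℝ) (hθ : 0 < θ) (hθ1 : θ ≤ 1) : (Bs K θ).Nonempty := by
  have h0 : 0 < θ / 2 := by positivity
  have h1 : θ / 2 < 1 := by linarith
  have hlt : ∀ i j : Fin K, i < j → (θ / 2) ^ ((j : ℕ) + 1) < θ * (θ / 2) ^ ((i : ℕ) + 1) := by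
    intro i j hij
    have h2 : (i : ℕ) + 1 + 1 ≤ (j : ℕ) + 1 := by
      have : (i : ℕ) < j := hij
      omega
    have h3 : (θ / 2) ^ ((j : ℕ) + 1) ≤ (θ / 2) ^ ((i : ℕ) + 1 + 1) :=
      pow_le_pow_of_le_one h0.le h1.le h2
    have h4 : 0 < (θ / 2) ^ ((i : ℕ) + 1) := by positivity
    rw [pow_succ (θ / 2) ((i : ℕ) + 1)] at h3
    nlinarith
  refine ⟨fun i => (θ / 2) ^ ((i : ℕ) + 1), ⟨?_, ?_⟩, hlt⟩
  · intro i j hij
    refine (hlt i j hij).trans_le ?_
    exact mul_le_of_le_one_left (by positivity) hθ1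
  · intro i _
    refine ⟨by positivity, ?_⟩
    exact pow_lt_one₀ h0.le h1 (by omega)

/-- the target region -/
def Rg (k : ℕ) (ε T : ℝ) : Set (Fin (k + 1) → ℝ) := {v | (∀ i, 0 < v i ∧ v i < T) ∧ Shr ε v}

theorem E_Bs {K k : ℕ} (ε : ℝ) (hε : 0 < ε) (j : Fin (k + 1 + 1) → Fin K) (hj : StrictMono j)
    (u : Fin K → ℝ) (hu : u ∈ Bs K (ε / (1 + ε))) : E j u ∈ Rg k ε 1 := by
  have hpos : ∀ i, 0 < E j u i ∧ E j u i < 1 := by
    intro i
    rw [E_apply]
    have h1 := hu.1.1 (hj (Fin.castSucc_lt_succ (i := i)))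
    have h2 := (hu.1.2 (j i.castSucc) trivial).2
    have h3 := (hu.1.2 (j i.succ) trivial).1
    constructor <;> linarith
  refine ⟨hpos, fun i => ⟨(hpos _).1, ?_⟩⟩
  rw [E_apply, E_apply]
  have e1 : (i.succ.castSucc : Fin (k + 1 + 1)) = i.castSucc.succ := by
    ext
    simp
  rw [e1]
  have h1 := hu.2 _ _ (hj (Fin.castSucc_lt_succ (i := i.castSucc)))
  have h2 := (hu.1.2 (j i.succ.succ) trivial).1
  have h3 : (1 + ε) * u (j i.castSucc.succ) < ε * u (j i.castSucc.castSucc) := by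
    have h4 := mul_lt_mul_of_pos_left h1 (show 0 < 1 + ε by positivity)
    have h5 : (1 + ε) * (ε / (1 + ε) * u (j i.castSucc.castSucc)) =
        ε * u (j i.castSucc.castSucc) := by field_simp
    rw [h5] at h4
    exact h4
  linarith

/-- **Union bound.** -/
theorem union_gen (K m : ℕ) (B : Set (Fin K → ℝ)) (hBo : IsOpen B) (hBn : B.Nonempty)
    (hBb : Bornology.IsBounded B) (R : Set (Fin m → ℝ))
    (hR : ∀ j : Fin (m + 1) → Fin K, StrictMono j → ∀ u ∈ B, E j u ∈ R) :
    ∃ κ : ℝ, 0 < κ ∧ ∀ S : Set (Fin m → ℝ),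
    (∀ u ∈ B, ∃ j : Fin (m + 1) → Fin K, StrictMono j ∧ E j u ∈ S) →
    ENNReal.ofReal κ ≤ volume (S ∩ R) := by
  classical
  have hC : ∀ j : Fin (m + 1) → Fin K, ∃ C : ℝ≥0∞, C ≠ ∞ ∧ (StrictMono j →
      ∀ S : Set (Fin m → ℝ), volume (B ∩ (E j) ⁻¹' S) ≤ C * volume S) := by
    intro j
    by_cases hj : StrictMono j
    · obtain ⟨C, h1, h2⟩ := vol_le (E j) (E_surj j hj) B hBb
      exact ⟨C, h1, fun _ => h2⟩
    · exact ⟨0, ENNReal.zero_ne_top, fun h => absurd h hj⟩
  choose C hCt hCle using hC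
  set D : ℝ≥0∞ := ∑ j, C j + 1 with hD
  have hDt : D ≠ ∞ := by
    rw [hD]
    exact ENNReal.add_ne_top.2 ⟨ENNReal.sum_ne_top.2 fun j _ => hCt j, ENNReal.one_ne_top⟩
  have hD0 : D ≠ 0 := by rw [hD]; simp
  have hV0 : volume B ≠ 0 := (hBo.measure_pos volume hBn).ne'
  have hVt : volume B ≠ ∞ := hBb.measure_lt_top.ne
  refine ⟨(volume B / D).toReal, ENNReal.toReal_pos ?_ ?_, fun S hS => ?_⟩
  · exact (ENNReal.div_pos hV0 hDt).ne'
  · exact ENNReal.div_ne_top hVt hD0
  rw [ENNReal.ofReal_toReal (ENNReal.div_ne_top hVt hD0)]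
  set S' : Set (Fin m → ℝ) := S ∩ R with hS'
  rw [ENNReal.div_le_iff_le_mul (Or.inl hD0) (Or.inl hDt)]
  have hcov : B ⊆ ⋃ j ∈ (Finset.univ.filter fun j : Fin (m + 1) → Fin K => StrictMono j),
      (B ∩ (E j) ⁻¹' S') := by
    intro u hu
    obtain ⟨j, hj, hjS⟩ := hS u hu
    simp only [mem_iUnion]
    exact ⟨j, by simpa using hj, hu, hjS, hR j hj u hu⟩
  calc volume B ≤ volume (⋃ j ∈ (Finset.univ.filter fun j : Fin (m + 1) → Fin K => StrictMono j),
      (B ∩ (E j) ⁻¹' S')) := measure_mono hcov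
    _ ≤ ∑ j ∈ (Finset.univ.filter fun j : Fin (m + 1) → Fin K => StrictMono j),
        volume (B ∩ (E j) ⁻¹' S') := measure_biUnion_finset_le _ _
    _ ≤ ∑ j ∈ (Finset.univ.filter fun j : Fin (m + 1) → Fin K => StrictMono j), C j * volume S' := by
        refine Finset.sum_le_sum fun j hj => hCle j ?_ S'
        simpa using hj
    _ ≤ ∑ j, C j * volume S' := Finset.sum_le_sum_of_subset (Finset.filter_subset _ _)
    _ = (∑ j, C j) * volume S' := by rw [Finset.sum_mul]
    _ ≤ D * volume S' := by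
        gcongr
        rw [hD]
        exact le_self_add
    _ = volume S' * D := mul_comm _ _

/-- Positive lower density at zero, inside the cone of the shrinking vectors. -/
theorem density (K k : ℕ) (ε : ℝ) (hε : 0 < ε) : ∃ κ : ℝ, 0 < κ ∧
    ∀ (L : Set (Fin (k + 1) → ℝ)) (c T : ℝ), 0 < T → T ≤ c →
    Ram K (k + 1) L c → ENNReal.ofReal (κ * T ^ (k + 1)) ≤ volume (L ∩ Rg k ε T) := by
  have hθ1 : ε / (1 + ε) ≤ 1 := by
    rw [div_le_one (by positivity)]
    linarith
  obtain ⟨κ, hκ, h⟩ := union_gen K (k + 1) (Bs K (ε / (1 + ε))) (Bs_open _ _)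
    (Bs_nonempty K _ (by positivity) hθ1) ((B1_bdd K).subset inter_subset_left) (Rg k ε 1)
    (fun j hj u hu => E_Bs ε hε j hj u hu)
  refine ⟨κ, hκ, fun L c T hT hTc hR => ?_⟩
  have h1 := h ((fun v => T • v) ⁻¹' L) (fun u hu => by
    obtain ⟨j, hj, hjL⟩ := hR (T • u) (fun a b hab => by
        have := hu.1.1 hab
        simp only [Pi.smul_apply, smul_eq_mul]
        exact mul_lt_mul_of_pos_left this hT) (fun i => by
        have := hu.1.2 i trivial
        simp only [Pi.smul_apply, smul_eq_mul]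
        refine ⟨mul_pos hT this.1, ?_⟩
        have h2 := mul_lt_mul_of_pos_left this.2 hT
        linarith)
    refine ⟨j, hj, ?_⟩
    rw [map_smul] at hjL
    exact hjL)
  have h2 : T • (((fun v : Fin (k + 1) → ℝ => T • v) ⁻¹' L) ∩ Rg k ε 1) ⊆ L ∩ Rg k ε T := by
    rintro _ ⟨v, ⟨hv1, hv2, hv3⟩, rfl⟩
    refine ⟨hv1, fun i => ?_, fun i => ?_⟩
    · have h3 := hv2 i
      simp only [Pi.smul_apply, smul_eq_mul]
      exact ⟨mul_pos hT h3.1, by nlinarith [h3.2]⟩
    · have h3 := hv3 i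
      simp only [Pi.smul_apply, smul_eq_mul]
      exact ⟨mul_pos hT h3.1, by nlinarith [h3.2]⟩
  refine le_trans ?_ (measure_mono h2)
  rw [Measure.addHaar_smul_of_nonneg _ hT.le, Module.finrank_fin_fun, mul_comm κ,
    ENNReal.ofReal_mul (by positivity)]
  gcongr

/-- Reversal. -/
theorem Ram_rev {K m : ℕ} (L : Set (Fin m → ℝ)) (c : ℝ) (h : Ram K m L c) :
    Ram K m {v | (fun i => v (Fin.rev i)) ∈ L} c := by
  intro u hu huc
  obtain ⟨j, hj, hjL⟩ := h (fun i => c - u (Fin.rev i)) (fun a b hab => by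
      have := hu (Fin.rev_lt_rev.2 hab)
      simp only
      linarith) (fun i => by
      have := huc (Fin.rev i)
      constructor <;> linarith [this.1, this.2])
  refine ⟨fun i => Fin.rev (j (Fin.rev i)), fun a b hab =>
    Fin.rev_lt_rev.2 (hj (Fin.rev_lt_rev.2 hab)), ?_⟩
  show (fun i => E (fun i => Fin.rev (j (Fin.rev i))) u (Fin.rev i)) ∈ L
  convert hjL using 1
  funext i
  simp only [E_apply, Fin.rev_castSucc, Fin.rev_succ, Fin.rev_rev]
  ring

theorem rev_mp (m : ℕ) : MeasurePreserving (MeasurableEquiv.piCongrLeft (fun _ : Fin m => ℝ) Fin.revPerm)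
    (volume : Measure (Fin m → ℝ)) (volume : Measure (Fin m → ℝ)) :=
  volume_measurePreserving_piCongrLeft (fun _ : Fin m => ℝ) Fin.revPerm

theorem rev_eq (m : ℕ) (v : Fin m → ℝ) :
    MeasurableEquiv.piCongrLeft (fun _ : Fin m => ℝ) Fin.revPerm v = fun i => v (Fin.rev i) := by
  funext i
  have h := MeasurableEquiv.piCongrLeft_apply_apply (β := fun _ : Fin m => ℝ)
    (e := (Fin.revPerm : Fin m ≃ Fin m)) v (Fin.rev i)
  simpa using h

theorem rev_vol (m : ℕ) (S : Set (Fin m → ℝ)) :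
    volume {v : Fin m → ℝ | (fun i => v (Fin.rev i)) ∈ S} = volume S := by
  have h1 := (rev_mp m).measure_preimage_equiv S
  rw [← h1]
  congr 1
  ext v
  rw [mem_preimage, rev_eq]
  rfl

end Pool.Agent.V7H18.JL
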