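import Pool.Agent.V7H18.JL.Meas

set_option autoImplicit false

/-! The interior of a closed set with the `K`-tuple property accumulates at every point `(x, 0, ..., 0)`. -/

open MeasureTheory Filter Topology Set

namespace Pool.Agent.V7H18.JL

theorem E_cont {K m : ℕ} (j : Fin (m + 1) → Fin K) : Continuous (E j) :=
  LinearMap.continuous_of_finiteDimensional _

theorem E_open {K m : ℕ} (j : Fin (m + 1) → Fin K) (hj : StrictMono j) : IsOpenMap (E j) :=
  LinearMap.isOpenMap_of_finiteDimensional (E j) (E_surj j hj)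

/-- the box of the shrinking vectors which start near `x` -/
def Bx {k : ℕ} (ε x : ℝ) : Set (Fin (k + 1) → ℝ) := {v | |v 0 - x| < ε ∧ Shr ε v}

theorem Bx_mono {k : ℕ} {ε ε' x : ℝ} (h : ε ≤ ε') (hx : ε ≤ x) :
    (Bx ε x : Set (Fin (k + 1) → ℝ)) ⊆ Bx ε' x := by
  rintro v ⟨h1, h2⟩
  have h3 : 0 < v 0 := by
    have := (abs_lt.1 h1).1
    linarith
  exact ⟨h1.trans_le h, Shr_mono h h3 h2⟩

theorem step_top {k : ℕ} (L : Set (Fin (k + 1) → ℝ)) (s e : ℝ) (he : 0 < e)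
    (hcon : ∃ x : ℝ, 0 < x ∧ x < s ∧ ∃ ε : ℝ, 0 < ε ∧ ∀ v ∈ interior L, v ∉ Bx ε x) :
    ∃ x ε s' : ℝ, 0 < x ∧ 0 < ε ∧ ε ≤ e ∧ 0 < s' ∧ 2 * s' ≤ ε ∧ 4 * s' ≤ x ∧ x + s' ≤ s ∧
      4 * s' ≤ ε * x ∧ ∀ v ∈ interior L, v ∉ Bx ε x := by
  obtain ⟨x, hx0, hxs, ε, hε, h⟩ := hcon
  set ε₁ : ℝ := min (min ε e) x with hε₁
  have hε₁0 : 0 < ε₁ := lt_min (lt_min hε he) hx0
  have hsx : 0 < s - x := by linarith
  set s' : ℝ := min (min (ε₁ / 2) (x / 4)) (min (s - x) (ε₁ * x / 4)) with hs'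
  have h1 : s' ≤ ε₁ / 2 := (min_le_left _ _).trans (min_le_left _ _)
  have h2 : s' ≤ x / 4 := (min_le_left _ _).trans (min_le_right _ _)
  have h3 : s' ≤ s - x := (min_le_right _ _).trans (min_le_left _ _)
  have h4 : s' ≤ ε₁ * x / 4 := (min_le_right _ _).trans (min_le_right _ _)
  refine ⟨x, ε₁, s', hx0, hε₁0, (min_le_left _ _).trans (min_le_right _ _), ?_, by linarith,
    by linarith, by linarith, by linarith, fun v hv hvB => h v hv (Bx_mono ?_ ?_ hvB)⟩
  · exact lt_min (lt_min (by positivity) (by positivity)) (lt_min hsx (by positivity))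
  · exact (min_le_left _ _).trans (min_le_left _ _)
  · exact min_le_right _ _

theorem scales_top {k : ℕ} (L : Set (Fin (k + 1) → ℝ)) (c : ℝ) (hc : 0 < c)
    (hcon : ∀ s : ℝ, 0 < s → ∃ x : ℝ, 0 < x ∧ x < s ∧ ∃ ε : ℝ, 0 < ε ∧
      ∀ v ∈ interior L, v ∉ Bx ε x) :
    ∃ x ε s : ℕ → ℝ, s 0 = c ∧ (∀ n, 0 < s n) ∧ (∀ n, 0 < x n) ∧ (∀ n, 0 < ε n) ∧
      (∀ n, ε (n + 1) ≤ ε n) ∧ (∀ n, 2 * s (n + 1) ≤ ε n) ∧ (∀ n, 4 * s (n + 1) ≤ x n) ∧
      (∀ n, x n + s (n + 1) ≤ s n) ∧ (∀ n, 4 * s (n + 1) ≤ ε n * x n) ∧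
      ∀ n, ∀ v ∈ interior L, v ∉ Bx (ε n) (x n) := by
  have h : ∀ s : {s : ℝ × ℝ // 0 < s.1 ∧ 0 < s.2}, ∃ x ε s' : ℝ, 0 < x ∧ 0 < ε ∧
      ε ≤ s.1.2 ∧ 0 < s' ∧ 2 * s' ≤ ε ∧ 4 * s' ≤ x ∧ x + s' ≤ s.1.1 ∧
      4 * s' ≤ ε * x ∧ ∀ v ∈ interior L, v ∉ Bx ε x :=
    fun s => step_top L s.1.1 s.1.2 s.2.2 (hcon s.1.1 s.2.1)
  choose x ε s' h1 h2 h3 h4 h5 h6 h7 h8 h9 using h
  let S : ℕ → {s : ℝ × ℝ // 0 < s.1 ∧ 0 < s.2} := fun n =>
    Nat.rec ⟨(c, 1), hc, one_pos⟩ (fun _ x => ⟨(s' x, ε x), h4 x, h2 x⟩) n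
  exact ⟨fun n => x (S n), fun n => ε (S n), fun n => (S n).1.1, rfl,
    fun n => (S n).2.1, fun n => h1 _, fun n => h2 _, fun n => h3 (S (n + 1)),
    fun n => h5 (S n), fun n => h6 (S n), fun n => h7 (S n), fun n => h8 (S n), fun n => h9 (S n)⟩

/-- **The interior accumulates at every point near zero of the first axis.** -/
theorem inter (K k : ℕ) (L : Set (Fin (k + 1) → ℝ)) (hL : IsClosed L) (c : ℝ) (hc : 0 < c)
    (hR : Ram K (k + 1) L c) :
    ∃ c' : ℝ, 0 < c' ∧ ∀ x : ℝ, 0 < x → x < c' → ∀ ε : ℝ, 0 < ε →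
      ∃ v ∈ interior L, |v 0 - x| < ε ∧ Shr ε v := by
  classical
  by_contra hcon0
  have hcon : ∀ s : ℝ, 0 < s → ∃ x : ℝ, 0 < x ∧ x < s ∧ ∃ ε : ℝ, 0 < ε ∧
      ∀ v ∈ interior L, v ∉ (Bx ε x : Set (Fin (k + 1) → ℝ)) := by
    intro s hs
    by_contra h
    apply hcon0
    refine ⟨s, hs, fun x hx0 hxs ε hε => ?_⟩
    by_contra h2
    apply h
    refine ⟨x, hx0, hxs, ε, hε, fun v hv hvB => h2 ⟨v, hv, hvB.1, hvB.2⟩⟩
  obtain ⟨x, ε, s, hs0, hspos, hx0, hε0, hεanti, h2ε, h2x, hxs, h4, hno⟩ := scales_top L c hc hcon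
  have hsanti : ∀ n, s (n + 1) ≤ s n := fun n => by linarith [hxs n, hx0 n]
  have hsa : Antitone s := antitone_nat_of_succ_le hsanti
  have hεa : Antitone ε := antitone_nat_of_succ_le hεanti
  set U : Set (Fin K → ℝ) := ⋂ i : Fin K, {u | |u i - x i| < s (i + 1)} with hU
  have hUo : IsOpen U := isOpen_iInter_of_finite fun i =>
    isOpen_lt ((continuous_apply i).sub continuous_const).abs continuous_const
  have hUm : ∀ u ∈ U, ∀ i : Fin K, |u i - x i| < s (i + 1) := by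
    intro u hu i
    exact mem_iInter.1 hu i
  have hUn : (fun i : Fin K => x i) ∈ U := by
    rw [hU, mem_iInter]
    intro i
    simp only [mem_ofPred_eq, sub_self, abs_zero]
    exact hspos _
  -- basic facts
  have hb : ∀ u ∈ U, ∀ i : Fin K, 0 < u i ∧ u i < s i := by
    intro u hu i
    have h1 := abs_lt.1 (hUm u hu i)
    have h2 := h2x i
    have h3 := hxs i
    have h5 := hspos (i + 1)
    have h6 := hx0 i
    constructor <;> linarith [h1.1, h1.2]
  have hd : ∀ u ∈ U, ∀ i i' : Fin K, i < i' →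
      x i - 2 * s (i + 1) < u i - u i' ∧ u i - u i' < s i := by
    intro u hu i i' hii
    have h1 := abs_lt.1 (hUm u hu i)
    have h2 := hb u hu i'
    have h3 : s i' ≤ s (i + 1) := hsa hii
    have h5 := hb u hu i
    constructor <;> linarith [h1.1, h1.2, h2.1, h2.2, h5.2]
  have hpos : ∀ u ∈ U, ∀ i i' : Fin K, i < i' → 0 < u i - u i' := by
    intro u hu i i' hii
    have h1 := (hd u hu i i' hii).1
    have h2 := h2x i
    have h3 := hx0 i
    linarith
  have hBx : ∀ u ∈ U, ∀ j : Fin (k + 1 + 1) → Fin K, StrictMono j →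
      E j u ∈ Bx (ε (j 0)) (x (j 0)) := by
    intro u hu j hj
    refine ⟨?_, fun i => ?_⟩
    · have h1 : E j u 0 = u (j 0) - u (j 1) := rfl
      rw [h1]
      have l1 : j 0 < j 1 := hj (by simp)
      have h2 := abs_lt.1 (hUm u hu (j 0))
      have h3 := hb u hu (j 1)
      have h5 : s (j 1) ≤ s (j 0 + 1) := hsa l1
      have h6 := h2ε (j 0)
      rw [abs_lt]
      constructor <;> linarith [h2.1, h2.2, h3.1, h3.2]
    · have e1 : (i.succ.castSucc : Fin (k + 1 + 1)) = i.castSucc.succ := by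
        ext
        simp
      have l1 : j i.castSucc.castSucc < j i.castSucc.succ := hj Fin.castSucc_lt_succ
      have l2 : j i.castSucc.succ < j i.succ.succ := by
        rw [← e1]
        exact hj Fin.castSucc_lt_succ
      rw [E_apply, E_apply, e1]
      have h1 := hd u hu _ _ l1
      have h2 := hd u hu _ _ l2
      have h3 : s (j i.castSucc.succ) ≤ s (j i.castSucc.castSucc + 1) := hsa l1
      have h5 := h4 (j i.castSucc.castSucc)
      have h6 : ε (j i.castSucc.castSucc) ≤ ε (j 0) := hεa (hj.monotone (Fin.zero_le _))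
      have h7 := hx0 (j i.castSucc.castSucc)
      have h8 := hε0 (j 0)
      have h9 := h2x (j i.castSucc.castSucc)
      have h10 := hspos (j i.castSucc.castSucc + 1)
      refine ⟨hpos u hu _ _ l2, ?_⟩
      have h11 : ε (j i.castSucc.castSucc) * x (j i.castSucc.castSucc) ≤
          ε (j 0) * x (j i.castSucc.castSucc) := mul_le_mul_of_nonneg_right h6 h7.le
      -- the first entry is at least a quarter of `x`
      have h12 : x (j i.castSucc.castSucc) ≤ 4 * (u (j i.castSucc.castSucc) - u (j i.castSucc.succ)) := by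
        have h13 := abs_lt.1 (hUm u hu (j i.castSucc.castSucc))
        have h14 := hb u hu (j i.castSucc.succ)
        have h15 := h4 (j i.castSucc.castSucc)
        linarith [h1.1, h13.1]
      have h13 : ε (j 0) * x (j i.castSucc.castSucc) ≤
          ε (j 0) * (4 * (u (j i.castSucc.castSucc) - u (j i.castSucc.succ))) :=
        mul_le_mul_of_nonneg_left h12 h8.le
      linarith [h2.2]
  have key : ∀ S : Finset (Fin (k + 1 + 1) → Fin K), (∀ j ∈ S, StrictMono j) →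
      ∃ O : Set (Fin K → ℝ), IsOpen O ∧ O.Nonempty ∧ O ⊆ U ∧ ∀ j ∈ S, ∀ γ ∈ O, E j γ ∉ L := by
    intro S
    induction S using Finset.induction_on with
    | empty => exact fun _ => ⟨U, hUo, ⟨_, hUn⟩, subset_rfl, by simp⟩
    | insert j S hjS ih =>
      intro hS
      obtain ⟨O, hO, hOne, hOV, hOS⟩ := ih fun j hj => hS j (Finset.mem_insert_of_mem hj)
      have hj := hS j (Finset.mem_insert_self j S)
      obtain ⟨γ, hγO, hγ⟩ : ∃ γ ∈ O, E j γ ∉ L := by
        by_contra hno2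
        push Not at hno2
        have h1 : E j '' O ⊆ interior L := by
          apply interior_maximal
          · rintro _ ⟨γ, hγ, rfl⟩
            exact hno2 γ hγ
          · exact E_open j hj O hO
        obtain ⟨γ, hγ⟩ := hOne
        exact hno (j 0) _ (h1 ⟨γ, hγ, rfl⟩) (hBx γ (hOV hγ) j hj)
      refine ⟨O ∩ (E j) ⁻¹' Lᶜ, hO.inter (hL.isOpen_compl.preimage (E_cont j)), ⟨γ, hγO, hγ⟩,
        inter_subset_left.trans hOV, ?_⟩
      intro j' hj' γ' hγ'
      rcases Finset.mem_insert.1 hj' with rfl | h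
      · exact hγ'.2
      · exact hOS j' h γ' hγ'.1
  obtain ⟨O, -, ⟨u, hu⟩, hOU, hOS⟩ := key
    (Finset.univ.filter fun j : Fin (k + 1 + 1) → Fin K => StrictMono j) (fun j hj => by simpa using hj)
  have huU := hOU hu
  obtain ⟨j, hj, hjL⟩ := hR u (fun i i' hii => by
      have := hpos u huU i i' hii
      linarith) (fun i => ⟨(hb u huU i).1, by
      have h1 := (hb u huU i).2
      have h2 : s i ≤ s 0 := hsa (Nat.zero_le _)
      rw [hs0] at h2
      linarith⟩)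
  exact hOS j (by simpa using hj) u hu hjL

end Pool.Agent.V7H18.JL
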