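import Pool.Agent.H672R3.InfRec
import Pool.Agent.V7H18.JL.Fib
import Pool.Agent.V7H18.JL.Top

set_option autoImplicit false

/-! The `K`-tuple property for the limit vectors of consecutive prime gaps at a general scale. -/

open Filter Topology Set MeasureTheory

namespace Pool.Agent.V7H18.JL

open Pool.Agent.H256R2.SC (ff)
open Pool.Agent.H312R2.RG.C3 (ff_tendsto ff_lower ff_small ff_slow)
open Pool.Agent.H672R3.SimRec (Occ window)
open Pool.Agent.H672R3.InfRec (exists_min_pos scale_ev)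

/-- the limit vectors at the scale `g` -/
def LimG (g : ℝ → ℝ) (m q a : ℕ) : Set (Fin m → ℝ) :=
  {v | ∀ ε : ℝ, 0 < ε → ∃ᶠ n : ℕ in atTop,
    (∀ i : Fin (m + 1), Nat.nth Nat.Prime (n + i) ≡ a [MOD q]) ∧
    ∀ i : Fin m, |((Nat.nth Nat.Prime (n + i + 1) : ℝ) - Nat.nth Nat.Prime (n + i)) /
      g (Nat.nth Nat.Prime n) - v i| < ε}

theorem isClosed_LimG (g : ℝ → ℝ) (m q a : ℕ) : IsClosed (LimG g m q a) := by
  rw [← isOpen_compl_iff, Metric.isOpen_iff]
  intro v hv
  have hv' : ∃ ε : ℝ, 0 < ε ∧ ∀ᶠ n : ℕ in atTop,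
      ¬ ((∀ i : Fin (m + 1), Nat.nth Nat.Prime (n + i) ≡ a [MOD q]) ∧
      ∀ i : Fin m, |((Nat.nth Nat.Prime (n + i + 1) : ℝ) - Nat.nth Nat.Prime (n + i)) /
        g (Nat.nth Nat.Prime n) - v i| < ε) := by
    by_contra hcon
    push Not at hcon
    apply hv
    intro ε hε h
    exact hcon ε hε h
  obtain ⟨ε, hε, hev⟩ := hv'
  refine ⟨ε / 2, by positivity, fun w hw => ?_⟩
  intro hwL
  have h1 := hwL (ε / 2) (by positivity)
  obtain ⟨n, hn1, hn2⟩ := (h1.and_eventually hev).exists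
  apply hn2
  refine ⟨hn1.1, fun i => ?_⟩
  have h3 := hn1.2 i
  have h4 : |w i - v i| < ε / 2 := by
    have := (dist_pi_lt_iff (by positivity)).1 (Metric.mem_ball.1 hw) i
    rwa [Real.dist_eq] at this
  rw [abs_lt] at h3 h4 ⊢
  constructor <;> linarith [h3.1, h3.2, h4.1, h4.2]

/-- the property of the windows -/
def WP (m K : ℕ) (c : ℝ) : Prop :=
  ∀ δ : ℝ, 0 < δ → ∀ q : ℕ, Squarefree q →
    ∀ᶠ X : ℝ in atTop, ∀ H : ℝ, Real.log X ≤ H → H ≤ c * ff X →
    ∀ β : Fin K → ℝ, StrictMono β → (∀ j, 0 ≤ β j ∧ β j ≤ 1) →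
    ∀ a : Fin K → ℕ, (∀ j, (a j).Coprime q) →
    ∃ j : Fin (m + 1) → Fin K, StrictMono j ∧
      X ^ (7 / 8 : ℝ) ≤ ((Occ m q (fun i => a (j i)) X H δ
        (fun i => β (j i.succ) - β (j i.castSucc))).ncard : ℝ)

theorem window' (m : ℕ) : ∃ K : ℕ, ∃ c : ℝ, 0 < c ∧ WP m K c := window m

/-- the vectors of the frequent blocks -/
def Fr (m q a : ℕ) (X H δ : ℝ) : Set (Fin m → ℝ) :=
  {v | X ^ (7 / 8 : ℝ) ≤ ((Occ m q (fun _ => a) X H δ v).ncard : ℝ)}

theorem ram_window (m K : ℕ) (c : ℝ) (hw : WP m K c) (δ : ℝ) (hδ : 0 < δ) (q a : ℕ)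
    (hq : Squarefree q) (ha : a.Coprime q) :
    ∀ᶠ X : ℝ in atTop, ∀ H : ℝ, Real.log X ≤ H → H ≤ c * ff X → Ram K m (Fr m q a X H δ) 1 := by
  filter_upwards [hw δ hδ q hq] with X hX H h1 h2 u hu huc
  obtain ⟨j, hj, h⟩ := hX H h1 h2 (fun i => 1 - u i) (fun i i' hii => by
      have := hu hii
      simp only
      linarith) (fun i => by
      have := huc i
      constructor <;> linarith [this.1, this.2]) (fun _ => a) (fun _ => ha)
  refine ⟨j, hj, ?_⟩
  have e : E j u = fun i : Fin m => (1 - u (j i.succ)) - (1 - u (j i.castSucc)) := by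
    funext i
    rw [E_apply]
    ring
  rw [e]
  exact h

/-- slowly varying -/
def Slow (g : ℝ → ℝ) : Prop :=
  ∀ δ : ℝ, 0 < δ → ∀ᶠ X : ℝ in atTop, ∀ P : ℝ, X ≤ P → P ≤ 4 * X → |g X / g P - 1| < δ

theorem ram_scale (m K : ℕ) (c : ℝ) (hw : WP m K c) (g : ℝ → ℝ) (hg : Slow g) (T : ℝ) (hT : 0 < T)
    (hTg : ∀ᶠ X : ℝ in atTop, Real.log X ≤ T * g X ∧ T * g X ≤ c * ff X)
    (q a : ℕ) (hq : Squarefree q) (ha : a.Coprime q) : Ram K m (LimG g m q a) T := by
  classical
  intro u hu huT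
  by_contra hcon
  push Not at hcon
  have h1 : ∀ j : Fin (m + 1) → Fin K, ∃ ε : ℝ, 0 < ε ∧ (StrictMono j → ∀ᶠ n : ℕ in atTop,
      ¬ ((∀ i : Fin (m + 1), Nat.nth Nat.Prime (n + i) ≡ a [MOD q]) ∧
      ∀ i : Fin m, |((Nat.nth Nat.Prime (n + i + 1) : ℝ) - Nat.nth Nat.Prime (n + i)) /
        g (Nat.nth Nat.Prime n) - E j u i| < ε)) := by
    intro j
    by_cases hj : StrictMono j
    · have h2 := hcon j hj
      simp only [LimG, mem_ofPred_eq, not_forall, not_frequently] at h2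
      obtain ⟨ε, hε, h3⟩ := h2
      exact ⟨ε, hε, fun _ => h3⟩
    · exact ⟨1, one_pos, fun h => absurd h hj⟩
  choose εf hεf hev using h1
  obtain ⟨ε, hε, hεle⟩ := exists_min_pos εf hεf
  have hev2 : ∀ᶠ n : ℕ in atTop, ∀ j : Fin (m + 1) → Fin K, StrictMono j →
      ¬ ((∀ i : Fin (m + 1), Nat.nth Nat.Prime (n + i) ≡ a [MOD q]) ∧
      ∀ i : Fin m, |((Nat.nth Nat.Prime (n + i + 1) : ℝ) - Nat.nth Nat.Prime (n + i)) /
        g (Nat.nth Nat.Prime n) - E j u i| < ε) := by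
    rw [eventually_all]
    intro j
    by_cases hj : StrictMono j
    · filter_upwards [hev j hj] with n hn _ hn2
      exact hn ⟨hn2.1, fun i => (hn2.2 i).trans_le (hεle j)⟩
    · exact Eventually.of_forall fun n hn => absurd hn hj
  obtain ⟨N₀, hN₀⟩ := eventually_atTop.1 hev2
  set δ : ℝ := min 1 (ε / (4 * T)) with hδ
  have hδ0 : 0 < δ := by positivity
  have hδ1 : δ ≤ 1 := min_le_left _ _
  have hδε : δ * (4 * T) ≤ ε := by
    have := min_le_right 1 (ε / (4 * T))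
    rw [← hδ, le_div_iff₀ (by positivity)] at this
    exact this
  obtain ⟨X, hX, hXs, hXsl, hXN, hX0⟩ := ((hw δ hδ0 q hq).and (hTg.and
    ((hg δ hδ0).and ((eventually_ge_atTop ((Nat.nth Nat.Prime N₀ : ℕ) : ℝ)).and
    (eventually_gt_atTop 1))))).exists
  obtain ⟨j, hj, hcard⟩ := hX (T * g X) hXs.1 hXs.2 (fun j => 1 - u j / T)
    (fun i j hij => by
      have := div_lt_div_of_pos_right (hu hij) hT
      simp only
      linarith)
    (fun j => by
      have h1 : 0 ≤ u j / T := div_nonneg (huT j).1.le hT.le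
      have h2 : u j / T ≤ 1 := (div_le_one hT).2 (huT j).2.le
      constructor <;> linarith) (fun _ => a) (fun _ => ha)
  have hne : (Occ m q (fun _ => a) X (T * g X) δ
      (fun i => (1 - u (j i.succ) / T) - (1 - u (j i.castSucc) / T))).Nonempty := by
    by_contra hemp
    rw [Set.not_nonempty_iff_eq_empty] at hemp
    rw [hemp, Set.ncard_empty, Nat.cast_zero] at hcard
    exact absurd hcard (not_le.2 (Real.rpow_pos_of_pos (by linarith) _))
  obtain ⟨n₀, hn1, hn2, hn3, hn4⟩ := hne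
  have hn₀ : N₀ ≤ n₀ := by
    by_contra hlt
    push Not at hlt
    have h2 : Nat.nth Nat.Prime n₀ < Nat.nth Nat.Prime N₀ :=
      Nat.nth_strictMono Nat.infinite_setOfPred_prime hlt
    have h3 : ((Nat.nth Nat.Prime n₀ : ℕ) : ℝ) < (Nat.nth Nat.Prime N₀ : ℕ) := by exact_mod_cast h2
    linarith
  refine hN₀ n₀ hn₀ j hj ⟨hn3, fun i => ?_⟩
  have h4 := hn4 i
  have hP2 : ((Nat.nth Nat.Prime n₀ : ℕ) : ℝ) ≤ 4 * X := by
    refine le_trans ?_ hn2
    exact_mod_cast (Nat.nth_strictMono Nat.infinite_setOfPred_prime).monotone (Nat.le_add_right n₀ m)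
  have h5 := (hXsl _ hn1.le hP2)
  have hF0 : 0 < T * g X := (Real.log_pos hX0).trans_le hXs.1
  have hF1 : 0 < g X := pos_of_mul_pos_right hF0 hT.le
  rw [E_apply]
  set G : ℝ := (Nat.nth Nat.Prime (n₀ + i + 1) : ℝ) - Nat.nth Nat.Prime (n₀ + i) with hG
  set F : ℝ := g X with hF
  set P : ℝ := g ((Nat.nth Nat.Prime n₀ : ℕ) : ℝ) with hP
  set x := u (j i.succ) with hx
  set y := u (j i.castSucc) with hy
  have hu1 := huT (j i.succ)
  have hv1 := huT (j i.castSucc)
  rw [← hx] at hu1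
  rw [← hy] at hv1
  have q1 : |G / F - (y - x)| ≤ T * δ := by
    have e1 : G / F - (y - x) = T * (G / (T * F) - ((1 - x / T) - (1 - y / T))) := by
      field_simp
      ring
    rw [e1, abs_mul, abs_of_pos hT]
    exact mul_le_mul_of_nonneg_left h4 hT.le
  have q2 : |G / F| ≤ T + T * δ := by
    have e1 : |y - x| ≤ T := by
      rw [abs_le]; constructor <;> linarith [hu1.1, hu1.2, hv1.1, hv1.2]
    calc |G / F| = |(G / F - (y - x)) + (y - x)| := by ring_nf
      _ ≤ |G / F - (y - x)| + |y - x| := abs_add_le _ _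
      _ ≤ _ := by linarith
  have hP0 : P ≠ 0 := by
    intro hP0
    rw [hP0, div_zero, zero_sub, abs_neg, abs_one] at h5
    linarith
  have e2 : G / P - (y - x) = (G / F - (y - x)) + (G / F) * (F / P - 1) := by
    field_simp
    ring
  rw [e2]
  calc |(G / F - (y - x)) + (G / F) * (F / P - 1)|
      ≤ |G / F - (y - x)| + |(G / F) * (F / P - 1)| := abs_add_le _ _
    _ = |G / F - (y - x)| + |G / F| * |F / P - 1| := by rw [abs_mul]
    _ ≤ T * δ + (T + T * δ) * δ := by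
        apply add_le_add q1
        exact mul_le_mul q2 h5.le (abs_nonneg _) (by positivity)
    _ < ε := by nlinarith [mul_pos hT hδ0]

theorem slow_ff : Slow ff := fun δ hδ => ff_slow δ hδ

theorem slow_log : Slow Real.log := by
  intro δ hδ
  have h1 := Real.tendsto_log_atTop.eventually_gt_atTop (Real.log 4 / δ + 1)
  filter_upwards [h1, eventually_gt_atTop 1] with X hX hX1 P hP1 hP2
  have hl4 : 0 ≤ Real.log 4 := Real.log_nonneg (by norm_num)
  have hlX : 0 < Real.log X := Real.log_pos hX1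
  have hPX : Real.log X ≤ Real.log P := Real.log_le_log (by linarith) hP1
  have hP4 : Real.log P ≤ Real.log 4 + Real.log X := by
    rw [← Real.log_mul (by norm_num) (by linarith)]
    exact Real.log_le_log (by linarith) hP2
  have hlP : 0 < Real.log P := hlX.trans_le hPX
  have h2 : Real.log 4 < δ * Real.log X := by
    have h3 : Real.log 4 / δ < Real.log X := by linarith
    rw [div_lt_iff₀ hδ] at h3
    linarith
  rw [div_sub_one hlP.ne', abs_div, abs_of_pos hlP, div_lt_iff₀ hlP, abs_lt]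
  constructor <;> nlinarith

end Pool.Agent.V7H18.JL
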